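import Mathlib

/-!
# Density of a coset of a numerical semigroup (subtask ES/SD of helper70), over Mathlib
-/

set_option autoImplicit false

namespace Pool.Agent.N137.ES.SDCore

open scoped Classical in
/-- the bound for the odd parts -/
theorem odd_part {M : Set ℕ} {A : ℕ → Prop}
    (hA : ∀ q ∈ M, 4 ≤ q → ∃ r₀ : ℕ, ∀ r ≥ r₀, Odd r → ∃ k₀ : ℕ, ∀ k ≥ k₀,
      A (q * r * (2 * k + 1)))
    (hdn : ∀ (D c : ℕ) (A : ℕ → Prop), Odd D → 0 < c →
      (∀ u : ℕ, u.Prime → u % 4 = 3 → Nat.Coprime u c → ∃ s₀ : ℕ, ∀ s ≥ s₀, Odd s →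
        ∃ k₀ : ℕ, ∀ k ≥ k₀, A (u * (D * s) * (2 * k + 1))) →
      ∀ ε : ℝ, 0 < ε → ∃ N : ℕ, ∀ x ≥ N,
        (((Finset.range x).filter fun n => D ∣ n ∧ Odd n ∧ ¬ A n).card : ℝ) ≤ ε * x)
    {J T : ℕ} (hJ : 0 < J) (hM : ∀ u : ℕ, Odd u → T ≤ u → J * u ∈ M) {ε : ℝ} (hε : 0 < ε) :
    ∃ N : ℕ, ∀ x ≥ N,
      (((Finset.range x).filter fun m => Odd m ∧ ¬ A (J * m)).card : ℝ) ≤ ε * x := by
  obtain ⟨N, hN⟩ := hdn 1 (T + 4).factorial (fun m => A (J * m)) odd_one (Nat.factorial_pos _) (by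
    intro u hu hu4 hc
    have hTu : T + 4 < u := by
      by_contra hcon
      push Not at hcon
      have h1 : u ∣ (T + 4).factorial := (hu.dvd_factorial).2 hcon
      exact hu.one_lt.ne' (Nat.Coprime.eq_one_of_dvd hc h1)
    have hodd : Odd u := by
      rw [Nat.odd_iff]
      omega
    obtain ⟨r₀, hr₀⟩ := hA (J * u) (hM u hodd (by omega)) (by nlinarith)
    refine ⟨r₀, fun s hs hso => ?_⟩
    obtain ⟨k₀, hk₀⟩ := hr₀ s hs hso
    refine ⟨k₀, fun k hk => ?_⟩
    have h2 := hk₀ k hk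
    have h3 : J * (u * (1 * s) * (2 * k + 1)) = J * u * s * (2 * k + 1) := by ring
    change A (J * (u * (1 * s) * (2 * k + 1)))
    rw [h3]
    exact h2) ε hε
  refine ⟨N, fun x hx => le_trans ?_ (hN x hx)⟩
  rw [Nat.cast_le]
  apply Finset.card_le_card
  intro m hm
  rw [Finset.mem_filter] at hm ⊢
  exact ⟨hm.1, one_dvd m, hm.2.1, hm.2.2⟩

open scoped Classical in
theorem core
    (hdn : ∀ (D c : ℕ) (A : ℕ → Prop), Odd D → 0 < c →
      (∀ u : ℕ, u.Prime → u % 4 = 3 → Nat.Coprime u c → ∃ s₀ : ℕ, ∀ s ≥ s₀, Odd s →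
        ∃ k₀ : ℕ, ∀ k ≥ k₀, A (u * (D * s) * (2 * k + 1))) →
      ∀ ε : ℝ, 0 < ε → ∃ N : ℕ, ∀ x ≥ N,
        (((Finset.range x).filter fun n => D ∣ n ∧ Odd n ∧ ¬ A n).card : ℝ) ≤ ε * x)
    (hs1 : ∀ (M₁ M : Set ℕ), (∀ a ∈ M₁, ∀ b ∈ M₁, a + b ∈ M₁) →
      (∀ a ∈ M₁, ∀ b ∈ M, a + b ∈ M) → (∀ a ∈ M, ∀ b ∈ M, a + b ∈ M₁) → (∀ n ∈ M, Even n) →
      (∃ n ∈ M, 0 < n) → ∃ J T : ℕ, 0 < J ∧ Even J ∧
        (((∀ n ∈ M, J ∣ n) ∧ ∀ s ≥ T, J * s ∈ M) ∨
          ((∀ n ∈ M, ∃ s : ℕ, Odd s ∧ n = J * s) ∧ ∀ s ≥ T, Odd s → J * s ∈ M)))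
    (M₁ M : Set ℕ) (A : ℕ → Prop) (h1 : ∀ a ∈ M₁, ∀ b ∈ M₁, a + b ∈ M₁)
    (h2 : ∀ a ∈ M₁, ∀ b ∈ M, a + b ∈ M) (h3 : ∀ a ∈ M, ∀ b ∈ M, a + b ∈ M₁)
    (h4 : ∀ n ∈ M, Even n)
    (hA : ∀ q ∈ M, 4 ≤ q → ∃ r₀ : ℕ, ∀ r ≥ r₀, Odd r → ∃ k₀ : ℕ, ∀ k ≥ k₀,
      A (q * r * (2 * k + 1))) (ε : ℝ) (hε : 0 < ε) : ∃ N : ℕ, ∀ x ≥ N,
      (((Finset.range x).filter fun n => n ∈ M ∧ ¬ A n).card : ℝ) ≤ ε * x := by
  by_cases hpos : ∃ n ∈ M, 0 < n
  · obtain ⟨J, T, hJ, -, hcase⟩ := hs1 M₁ M h1 h2 h3 h4 hpos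
    rcases hcase with ⟨hd, hM⟩ | ⟨hd, hM⟩
    · -- all multiples
      obtain ⟨V, hV⟩ := pow_unbounded_of_one_lt (4 / ε) (one_lt_two : (1 : ℝ) < 2)
      have hV1 : (0 : ℝ) < (V : ℝ) + 1 := by positivity
      have hb : ∀ v : ℕ, ∃ N : ℕ, ∀ x ≥ N,
          (((Finset.range x).filter fun m => Odd m ∧ ¬ A (J * 2 ^ v * m)).card : ℝ) ≤
            ε / (2 * ((V : ℝ) + 1)) * x := by
        intro v
        apply odd_part hA hdn (T := T) (Nat.mul_pos hJ (pow_pos two_pos v))
        · intro u _ hu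
          rw [mul_assoc]
          apply hM
          have : 1 ≤ 2 ^ v := Nat.one_le_two_pow
          nlinarith
        · positivity
      choose Nf hNf using hb
      obtain ⟨N0, hN0⟩ := exists_nat_ge (4 / ε)
      refine ⟨max N0 ((Finset.range V).sup Nf), fun x hx => ?_⟩
      have hx0 : N0 ≤ x := le_trans (le_max_left _ _) hx
      have hxv : ∀ v ∈ Finset.range V, Nf v ≤ x := fun v hv =>
        le_trans (Finset.le_sup hv) (le_trans (le_max_right _ _) hx)
      have hsub : (Finset.range x).filter (fun n => n ∈ M ∧ ¬ A n) ⊆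
          ((Finset.range V).biUnion fun v =>
            ((Finset.range x).filter fun m => Odd m ∧ ¬ A (J * 2 ^ v * m)).image
              fun m => J * 2 ^ v * m) ∪
          (Finset.range (x / 2 ^ V + 1)).image fun j => 2 ^ V * j := by
        intro n hn
        rw [Finset.mem_filter, Finset.mem_range] at hn
        obtain ⟨hnx, hnM, hnA⟩ := hn
        rw [Finset.mem_union]
        by_cases hdiv : 2 ^ V ∣ n
        · right
          obtain ⟨j, rfl⟩ := hdiv
          rw [Finset.mem_image]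
          refine ⟨j, ?_, rfl⟩
          rw [Finset.mem_range, Nat.lt_succ_iff, Nat.le_div_iff_mul_le (pow_pos two_pos V),
            mul_comm]
          exact hnx.le
        · left
          obtain ⟨k, rfl⟩ := hd n hnM
          have hk0 : k ≠ 0 := by
            rintro rfl
            exact hdiv (by simp)
          obtain ⟨v, m, hm, hkm⟩ := Nat.exists_eq_two_pow_mul_odd hk0
          have hvV : v < V := by
            by_contra hcon
            push Not at hcon
            apply hdiv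
            rw [hkm]
            exact Dvd.dvd.mul_left (Dvd.dvd.mul_right (pow_dvd_pow 2 hcon) m) J
          rw [Finset.mem_biUnion]
          refine ⟨v, Finset.mem_range.2 hvV, ?_⟩
          rw [Finset.mem_image]
          refine ⟨m, ?_, by rw [hkm, mul_assoc]⟩
          rw [Finset.mem_filter, Finset.mem_range]
          refine ⟨?_, hm, ?_⟩
          · refine lt_of_le_of_lt ?_ hnx
            rw [hkm, ← mul_assoc]
            exact Nat.le_mul_of_pos_left m (Nat.mul_pos hJ (pow_pos two_pos v))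
          · rw [hkm, ← mul_assoc] at hnA
            exact hnA
      have hc1 : ((Finset.range x).filter (fun n => n ∈ M ∧ ¬ A n)).card ≤
          (∑ v ∈ Finset.range V,
            ((Finset.range x).filter fun m => Odd m ∧ ¬ A (J * 2 ^ v * m)).card) +
          (x / 2 ^ V + 1) := by
        refine (Finset.card_le_card hsub).trans ((Finset.card_union_le _ _).trans ?_)
        refine Nat.add_le_add ?_ ?_
        · refine Finset.card_biUnion_le.trans (Finset.sum_le_sum fun v _ => ?_)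
          exact Finset.card_image_le
        · refine Finset.card_image_le.trans ?_
          rw [Finset.card_range]
      have hc2 : (((Finset.range x).filter (fun n => n ∈ M ∧ ¬ A n)).card : ℝ) ≤
          (∑ v ∈ Finset.range V,
            (((Finset.range x).filter fun m => Odd m ∧ ¬ A (J * 2 ^ v * m)).card : ℝ)) +
          (((x / 2 ^ V : ℕ) : ℝ) + 1) := by
        exact_mod_cast hc1
      have hc3 : (∑ v ∈ Finset.range V,
            (((Finset.range x).filter fun m => Odd m ∧ ¬ A (J * 2 ^ v * m)).card : ℝ)) ≤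
          ε / 2 * x := by
        have h5 : (∑ v ∈ Finset.range V,
            (((Finset.range x).filter fun m => Odd m ∧ ¬ A (J * 2 ^ v * m)).card : ℝ)) ≤
            ∑ _v ∈ Finset.range V, ε / (2 * ((V : ℝ) + 1)) * x :=
          Finset.sum_le_sum fun v hv => hNf v x (hxv v hv)
        rw [Finset.sum_const, Finset.card_range, nsmul_eq_mul] at h5
        refine h5.trans ?_
        have h6 : (V : ℝ) * (ε / (2 * ((V : ℝ) + 1)) * x) =
            (V : ℝ) / ((V : ℝ) + 1) * (ε / 2 * x) := by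
          field_simp
        rw [h6]
        have h7 : (V : ℝ) / ((V : ℝ) + 1) ≤ 1 := by
          rw [div_le_one hV1]
          linarith
        have h8 : (0 : ℝ) ≤ ε / 2 * x := by positivity
        nlinarith
      have hc4 : ((x / 2 ^ V : ℕ) : ℝ) ≤ ε / 4 * x := by
        have h5 : ((x / 2 ^ V : ℕ) : ℝ) ≤ (x : ℝ) / ((2 ^ V : ℕ) : ℝ) := Nat.cast_div_le
        refine h5.trans ?_
        push_cast
        have h6 : (0 : ℝ) < 2 ^ V := by positivity
        rw [div_le_iff₀ h6]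
        have h7 : 4 < 2 ^ V * ε := by
          rwa [div_lt_iff₀ hε] at hV
        have h8 : (0 : ℝ) ≤ x := Nat.cast_nonneg x
        nlinarith
      have hc5 : (1 : ℝ) ≤ ε / 4 * x := by
        have h6 : (4 : ℝ) / ε ≤ x := hN0.trans (by exact_mod_cast hx0)
        rw [div_le_iff₀ hε] at h6
        nlinarith
      linarith
    · -- odd multiples
      obtain ⟨N, hN⟩ := odd_part hA hdn (T := T) hJ (fun u hu hT => hM u hT hu) hε
      refine ⟨N, fun x hx => le_trans ?_ (hN x hx)⟩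
      rw [Nat.cast_le]
      have hsub : (Finset.range x).filter (fun n => n ∈ M ∧ ¬ A n) ⊆
          ((Finset.range x).filter fun m => Odd m ∧ ¬ A (J * m)).image fun m => J * m := by
        intro n hn
        rw [Finset.mem_filter, Finset.mem_range] at hn
        obtain ⟨hnx, hnM, hnA⟩ := hn
        obtain ⟨s, hs, rfl⟩ := hd n hnM
        rw [Finset.mem_image]
        refine ⟨s, ?_, rfl⟩
        rw [Finset.mem_filter, Finset.mem_range]
        exact ⟨lt_of_le_of_lt (Nat.le_mul_of_pos_left s hJ) hnx, hs, hnA⟩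
      exact (Finset.card_le_card hsub).trans Finset.card_image_le
  · push Not at hpos
    obtain ⟨N0, hN0⟩ := exists_nat_ge (1 / ε)
    refine ⟨N0, fun x hx => ?_⟩
    have hsub : (Finset.range x).filter (fun n => n ∈ M ∧ ¬ A n) ⊆ {0} := by
      intro n hn
      rw [Finset.mem_filter] at hn
      rw [Finset.mem_singleton]
      exact Nat.le_zero.1 (hpos n hn.2.1)
    have h5 : ((Finset.range x).filter (fun n => n ∈ M ∧ ¬ A n)).card ≤ 1 :=
      (Finset.card_le_card hsub).trans (by simp)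
    have h6 : (1 : ℝ) / ε ≤ x := hN0.trans (by exact_mod_cast hx)
    rw [div_le_iff₀ hε] at h6
    have h7 : (((Finset.range x).filter (fun n => n ∈ M ∧ ¬ A n)).card : ℝ) ≤ 1 := by
      exact_mod_cast h5
    linarith

end Pool.Agent.N137.ES.SDCore
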