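import Pool.Agent.N70.ES.Stm
import Pool.Agent.N137.ES.SDCore

/-!
# ES/SD (helper137)
-/

set_option autoImplicit false

namespace Pool.Agent.N137.ES

theorem t_sdo : Pool.Agent.N70.ES.St_sdOf := fun hdn hs1 => SDCore.core hdn hs1

end Pool.Agent.N137.ES
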